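import Mathlib
import Pool.Agent.H.MP_fda97a_al.Glob

namespace Pool.Agent.H.MP_add2b9_al
open Pool.Agent.H.MP_296aa8_al Pool.Agent.H.MP_fda97a_al Matrix Polynomial

variable {N : ℕ}

lemma aeval_lin (T : Mat N) (μ : ℂ) (k : ℕ) :
    aeval T ((X - C μ) ^ k) = (T - μ • (1 : Mat N)) ^ k := by
  rw [map_pow, map_sub, aeval_X, aeval_C, Algebra.algebraMap_eq_smul_one]

lemma kill_mul {T : Mat N} {v : Fin N → ℂ} {f g : ℂ[X]} (h : aeval T f *ᵥ v = 0) (hd : f ∣ g) :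
    aeval T g *ᵥ v = 0 := by
  obtain ⟨c, rfl⟩ := hd
  rw [mul_comm, map_mul, ← Matrix.mulVec_mulVec, h, Matrix.mulVec_zero]

lemma LS_iff (T : Mat N) (x : Fin N → ℂ) (l : ℂ) :
    (l ∈ spectrum ℂ T ∧ ∃ c : ℂ →₀ (Fin N → ℂ),
      (∀ μ, (T - μ • (1 : Mat N)) ^ N *ᵥ c μ = 0) ∧ x = c.sum (fun _ v => v) ∧ c l ≠ 0) ↔
    LS T x l := by
  classical
  have key : ∀ (c : ℂ →₀ (Fin N → ℂ)), (∀ μ, (T - μ • (1 : Mat N)) ^ N *ᵥ c μ = 0) →
      ∃ g : ℂ[X], g.eval l ≠ 0 ∧ aeval T g *ᵥ c.sum (fun _ v => v) = aeval T g *ᵥ c l := by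
    intro c hc
    refine ⟨∏ μ ∈ c.support.erase l, (X - C μ) ^ N, ?_, ?_⟩
    · rw [Polynomial.eval_prod]
      refine Finset.prod_ne_zero_iff.2 fun μ hμ => ?_
      simp only [Polynomial.eval_pow, Polynomial.eval_sub, Polynomial.eval_X, Polynomial.eval_C]
      exact pow_ne_zero _ (sub_ne_zero.2 (Finset.ne_of_mem_erase hμ).symm)
    · rw [Finsupp.sum, Matrix.mulVec_sum, Finset.sum_eq_single l]
      · intro μ hμ hne
        exact kill_mul (by rw [aeval_lin]; exact hc μ)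
          (Finset.dvd_prod_of_mem _ (Finset.mem_erase.2 ⟨hne, hμ⟩))
      · intro h
        rw [Finsupp.notMem_support_iff.1 h, Matrix.mulVec_zero]
  constructor
  · rintro ⟨-, c, hc, rfl, hl⟩ f hf
    obtain ⟨g, hg, e⟩ := key c hc
    by_contra hfl
    have h1 : aeval T (f * g) *ᵥ c l = 0 := by
      rw [map_mul, ← Matrix.mulVec_mulVec, ← e, Matrix.mulVec_mulVec, ← map_mul]
      exact kill_mul hf (dvd_mul_right _ _)
    have h2 : IsCoprime ((X - C l) ^ N) (f * g) := by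
      refine IsCoprime.pow_left ((Polynomial.irreducible_X_sub_C l).coprime_iff_not_dvd.2 ?_)
      rw [Polynomial.dvd_iff_isRoot, Polynomial.IsRoot, Polynomial.eval_mul]
      exact mul_ne_zero hfl hg
    obtain ⟨a, b, hab⟩ := h2
    apply hl
    have h3 : aeval T (a * (X - C l) ^ N) *ᵥ c l = 0 :=
      kill_mul (by rw [aeval_lin]; exact hc l) (dvd_mul_left _ _)
    have h4 : aeval T (b * (f * g)) *ᵥ c l = 0 := kill_mul h1 (dvd_mul_left _ _)
    have := congrArg (fun p => aeval T p *ᵥ c l) hab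
    simp only [map_add, Matrix.add_mulVec, h3, h4, map_one, Matrix.one_mulVec, add_zero] at this
    exact this.symm
  · intro h
    refine ⟨(spec_iff _ _).2 h.ev, ?_⟩
    have hx : x ∈ ⨆ μ, Module.End.maxGenEigenspace (Matrix.toLin' T) μ := by
      rw [Module.End.iSup_maxGenEigenspace_eq_top]; trivial
    obtain ⟨c, hc, hs⟩ := (Submodule.mem_iSup_iff_exists_finsupp _ _).1 hx
    have hc' : ∀ μ, (T - μ • (1 : Mat N)) ^ N *ᵥ c μ = 0 := by
      intro μ
      have := hc μ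
      rw [Module.End.maxGenEigenspace_eq_genEigenspace_finrank, Module.End.mem_genEigenspace_nat,
        LinearMap.mem_ker, Module.finrank_fin_fun] at this
      rw [← this, ← Matrix.toLin'_apply, Matrix.toLin'_pow, map_sub, map_smul, Matrix.toLin'_one]
      rfl
    refine ⟨c, hc', hs.symm, fun hl => ?_⟩
    obtain ⟨g, hg, e⟩ := key c hc'
    rw [hs, hl, Matrix.mulVec_zero] at e
    exact hg (h g e)

lemma LS_smul {A : Mat N} {x : Fin N → ℂ} {c : ℂ} (hc : c ≠ 0) (μ : ℂ) :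
    LS A (c • x) μ ↔ LS A x μ := by
  refine forall_congr' fun f => imp_congr_left ?_
  rw [Matrix.mulVec_smul, smul_eq_zero]
  simp [hc]

def InE (x0 : Fin N → ℂ) (T : Mat N) : Prop :=
  (∃ c : ℂ, T *ᵥ x0 = c • x0) ∧ ∃ r s : ℂ, s ≠ 0 ∧ (T - r • (1 : Mat N)) ^ 2 = s • (1 : Mat N)

lemma sym_E {x0 : Fin N → ℂ} (hx : x0 ≠ 0) {T : Mat N} (hT : InE x0 T) (S : Mat N) (μ : ℂ) :
    LS (-br T S) x0 μ ↔ LS (br T S) x0 μ := by
  obtain ⟨⟨c, hc⟩, r, s, hs, hsq⟩ := hT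
  set T0 : Mat N := T - r • (1 : Mat N) with hT0
  rw [pow_two] at hsq
  have hinv : T0 * (s⁻¹ • T0) = 1 := by rw [Matrix.mul_smul, hsq, smul_smul, inv_mul_cancel₀ hs, one_smul]
  have hU : IsUnit T0 := IsUnit.of_mul_eq_one _ hinv
  have hi : T0⁻¹ = s⁻¹ • T0 := Matrix.inv_eq_right_inv hinv
  have hY0 : br T S = T0 * S - S * T0 := by
    simp only [hT0, br, sub_mul, mul_sub, Matrix.smul_mul, Matrix.mul_smul, one_mul, mul_one]
    abel
  have hanti : T0 * br T S = -(br T S * T0) := by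
    have : T0 * br T S + br T S * T0 = T0 * T0 * S - S * (T0 * T0) := by rw [hY0]; noncomm_ring
    rw [hsq] at this
    simp only [Matrix.smul_mul, Matrix.mul_smul, one_mul, mul_one, sub_self] at this
    exact eq_neg_of_add_eq_zero_left this
  have hconj : -br T S = T0 * br T S * T0⁻¹ := by
    rw [hanti, hi, neg_mul, mul_assoc, hinv, mul_one]
  have hx0 : T0 *ᵥ x0 = (c - r) • x0 := by
    rw [hT0, Matrix.sub_mulVec, hc, Matrix.smul_mulVec, Matrix.one_mulVec, sub_smul]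
  have hcr : c - r ≠ 0 := by
    intro h
    rw [h, zero_smul] at hx0
    exact hx (Matrix.mulVec_injective_iff_isUnit.2 hU (by rw [hx0, Matrix.mulVec_zero]))
  rw [hconj, LS_conj hU, hi, Matrix.smul_mulVec, hx0, smul_smul,
    LS_smul (mul_ne_zero (inv_ne_zero hs) hcr)]

lemma exists_pair {x y : Fin N → ℂ} (hx : x ≠ 0) (h : ¬ ∃ c : ℂ, y = c • x) :
    ∃ f g : Fin N → ℂ, f ⬝ᵥ x = 0 ∧ f ⬝ᵥ y = 1 ∧ g ⬝ᵥ x = 1 ∧ g ⬝ᵥ y = 0 := by
  obtain ⟨g0, hg0⟩ := exists_dot hx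
  have : y - (g0 ⬝ᵥ y) • x ≠ 0 := fun h1 => h ⟨_, sub_eq_zero.1 h1⟩
  obtain ⟨h0, hh0⟩ := exists_dot this
  rw [dotProduct_sub, dotProduct_smul, smul_eq_mul] at hh0
  have a1 : (h0 - (h0 ⬝ᵥ x) • g0) ⬝ᵥ x = 0 := by simp [sub_dotProduct, hg0]
  have a2 : (h0 - (h0 ⬝ᵥ x) • g0) ⬝ᵥ y = 1 := by
    rw [sub_dotProduct, smul_dotProduct, smul_eq_mul]; linear_combination hh0
  refine ⟨h0 - (h0 ⬝ᵥ x) • g0, g0 - (g0 ⬝ᵥ y) • (h0 - (h0 ⬝ᵥ x) • g0), a1, a2, ?_, ?_⟩
  · rw [sub_dotProduct, smul_dotProduct, a1, hg0]; simp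
  · rw [sub_dotProduct, smul_dotProduct, a2]; simp

lemma comb {w a b f1 f2 : Fin N → ℂ} (h1 : f1 ⬝ᵥ w = 0) (h2 : f2 ⬝ᵥ w = 0) (ha : f1 ⬝ᵥ a ≠ 0)
    (hb : f2 ⬝ᵥ b ≠ 0) : ∃ f : Fin N → ℂ, f ⬝ᵥ w = 0 ∧ f ⬝ᵥ a ≠ 0 ∧ f ⬝ᵥ b ≠ 0 := by
  by_cases c1 : f1 ⬝ᵥ b = 0
  · by_cases c2 : f2 ⬝ᵥ a = 0
    · exact ⟨f1 + f2, by simp [h1, h2], by simpa [c2] using ha, by simpa [c1] using hb⟩
    · exact ⟨f2, h2, c2, hb⟩
  · exact ⟨f1, h1, ha, c1⟩

lemma two_f {w a b : Fin N → ℂ} (hw : w ≠ 0) (ha : ¬ ∃ c : ℂ, a = c • w) (hb : ¬ ∃ c : ℂ, b = c • w) :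
    ∃ f : Fin N → ℂ, f ⬝ᵥ w = 0 ∧ f ⬝ᵥ a ≠ 0 ∧ f ⬝ᵥ b ≠ 0 := by
  obtain ⟨f1, -, a1, a2, -⟩ := exists_pair hw ha
  obtain ⟨f2, -, b1, b2, -⟩ := exists_pair hw hb
  exact comb a1 b1 (by rw [a2]; exact one_ne_zero) (by rw [b2]; exact one_ne_zero)

lemma test_pair {x y : Fin N → ℂ} (hx : x ≠ 0) (h : ¬ ∃ c : ℂ, y = c • x) :
    ∃ T S : Mat N, br T S *ᵥ x = (-1 : ℂ) • x ∧ br T S *ᵥ y = (1 : ℂ) • y := by
  obtain ⟨f, g, a1, a2, a3, a4⟩ := exists_pair hx h
  refine ⟨vecMulVec y g, vecMulVec x f, ?_, ?_⟩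
  · rw [br_rank]; simp [Matrix.vecMulVec_mulVec, a1, a2, a3]
  · rw [br_rank]; simp [Matrix.vecMulVec_mulVec, a2, a3, a4]

def NS (x0 : Fin N → ℂ) (T S : Mat N) : Prop := ∃ μ, LS (br T S) x0 μ ∧ ¬ LS (br T S) x0 (-μ)

lemma ns_a {x0 f : Fin N → ℂ} (hx : x0 ≠ 0) {T : Mat N} (h1 : f ⬝ᵥ x0 = 0) (h2 : f ⬝ᵥ T *ᵥ x0 ≠ 0) :
    NS x0 T (vecMulVec x0 f) := by
  have e : br T (vecMulVec x0 f) *ᵥ x0 = (-(f ⬝ᵥ T *ᵥ x0)) • x0 := by
    rw [br_rank, h1]; simp
  refine ⟨_, (LS_eig e hx _).2 rfl, fun h => h2 ?_⟩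
  have := (LS_eig e hx _).1 h
  linear_combination this / 2

lemma ns_b {x0 : Fin N → ℂ} (hx : x0 ≠ 0) {T : Mat N} (hT : ¬ InE x0 T) {a : ℂ}
    (ha : T *ᵥ x0 = a • x0) : ∃ S : Mat N, (¬ ∃ c : ℂ, S *ᵥ x0 = c • x0) ∧ NS x0 T S := by
  set T0 : Mat N := T - a • (1 : Mat N) with hT0
  have h0 : T0 *ᵥ x0 = 0 := by
    rw [hT0, Matrix.sub_mulVec, ha, Matrix.smul_mulVec, Matrix.one_mulVec, sub_self]
  have hbr : ∀ S, br T S = br T0 S := fun S => by
    simp only [hT0, br, sub_mul, mul_sub, Matrix.smul_mul, Matrix.mul_smul, one_mul, mul_one]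
    abel
  have hq : ∀ b : ℂ, b ≠ 0 → T0 * T0 ≠ b • T0 := by
    intro b hb h
    refine hT ⟨⟨a, ha⟩, a + b / 2, b ^ 2 / 4, by simpa using hb, ?_⟩
    have : T - (a + b / 2) • (1 : Mat N) = T0 - (b / 2) • (1 : Mat N) := by
      rw [hT0, add_smul]; abel
    rw [this, pow_two]
    simp only [sub_mul, mul_sub, Matrix.smul_mul, Matrix.mul_smul, one_mul, mul_one, h]
    module
  have : ∃ y f : Fin N → ℂ, f ⬝ᵥ T0 *ᵥ T0 *ᵥ y = 0 ∧ f ⬝ᵥ x0 ≠ 0 ∧ f ⬝ᵥ T0 *ᵥ y ≠ 0 := by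
    by_cases c1 : ∃ y, T0 *ᵥ y ≠ 0 ∧ T0 *ᵥ T0 *ᵥ y = 0
    · obtain ⟨y, hy, hy2⟩ := c1
      obtain ⟨f1, h1⟩ := exists_dot hx
      obtain ⟨f2, h2⟩ := exists_dot hy
      exact ⟨y, comb (f1 := f1) (f2 := f2) (by simp [hy2]) (by simp [hy2])
        (by rw [h1]; exact one_ne_zero) (by rw [h2]; exact one_ne_zero)⟩
    push Not at c1
    have : ∃ y, ¬ ∃ c : ℂ, T0 *ᵥ T0 *ᵥ y = c • T0 *ᵥ y := by
      by_contra h
      push Not at h
      have : ∃ y, T0 *ᵥ y ≠ 0 := by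
        by_contra h1
        push Not at h1
        have : T0 = 0 := Matrix.ext_iff_mulVec.2 fun v => by rw [h1, Matrix.zero_mulVec]
        exact hq 1 one_ne_zero (by rw [this]; simp)
      obtain ⟨y0, hy0⟩ := this
      obtain ⟨b, hb⟩ := h y0
      have hb0 : b ≠ 0 := by rintro rfl; exact c1 y0 hy0 (by simpa using hb)
      refine hq b hb0 (Matrix.ext_iff_mulVec.2 fun y => ?_)
      rw [← Matrix.mulVec_mulVec, Matrix.smul_mulVec]
      obtain ⟨c, hc⟩ := h y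
      obtain ⟨e, he⟩ := h (y + y0)
      rw [Matrix.mulVec_add, Matrix.mulVec_add, hb, hc] at he
      by_cases heb : e = b
      · rw [hc]
        rw [heb, smul_add] at he
        exact add_right_cancel he
      · have h1 : (e - b) • T0 *ᵥ y0 = (c - e) • T0 *ᵥ y := by
          linear_combination (norm := module) -he
        have h2 := congrArg (fun z => T0 *ᵥ z) h1
        simp only [Matrix.mulVec_smul, hb, hc] at h2
        have h3 : ((e - b) * (b - c)) • T0 *ᵥ y0 = 0 := by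
          linear_combination (norm := module) h2 - c • h1
        have h4 := (smul_eq_zero.1 h3).resolve_right hy0
        have h5 := (mul_eq_zero.1 h4).resolve_left (sub_ne_zero.2 heb)
        rw [hc, sub_eq_zero.1 h5]
    obtain ⟨y, hy⟩ := this
    have hw : T0 *ᵥ T0 *ᵥ y ≠ 0 := fun h => hy ⟨0, by rw [h, zero_smul]⟩
    refine ⟨y, two_f hw ?_ ?_⟩
    · rintro ⟨c, hc⟩
      have hc0 : c ≠ 0 := by rintro rfl; exact hx (by simpa using hc)
      rw [hc, Matrix.mulVec_smul] at h0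
      exact c1 _ hw ((smul_eq_zero.1 h0).resolve_left hc0)
    · rintro ⟨c, hc⟩
      have hc0 : c ≠ 0 := by
        rintro rfl
        rw [zero_smul] at hc
        exact hw (by rw [hc, Matrix.mulVec_zero])
      refine hy ⟨c⁻¹, ?_⟩
      conv_rhs => rw [hc]
      rw [smul_smul, inv_mul_cancel₀ hc0, one_smul]
  obtain ⟨y, f, a1, a2, a3⟩ := this
  have hy : T0 *ᵥ y ≠ 0 := fun h => a3 (by rw [h, dotProduct_zero])
  have e1 : br T (vecMulVec y f) *ᵥ x0 = (f ⬝ᵥ x0) • T0 *ᵥ y := by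
    rw [hbr, br_rank, h0]; simp
  have e2 : br T (vecMulVec y f) *ᵥ (T0 *ᵥ y) = (f ⬝ᵥ T0 *ᵥ y) • T0 *ᵥ y := by
    rw [hbr, br_rank, a1]; simp
  refine ⟨vecMulVec y f, ?_, f ⬝ᵥ T0 *ᵥ y, fun p hp => ?_, fun h => ?_⟩
  · rintro ⟨c, hc⟩
    have := congrArg (fun z => T0 *ᵥ z) hc
    simp only [Matrix.vecMulVec_mulVec, Matrix.mulVec_smul, h0, smul_zero, op_smul_eq_smul] at this
    exact hy ((smul_eq_zero.1 this).resolve_left a2)
  · have := kill_mul hp (dvd_mul_right p X)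
    rw [map_mul, aeval_X, ← Matrix.mulVec_mulVec, e1, Matrix.mulVec_smul, aeval_eig e2] at this
    exact (smul_eq_zero.1 ((smul_eq_zero.1 this).resolve_left a2)).resolve_right hy
  · have := h ((X - C (f ⬝ᵥ T0 *ᵥ y)) * X) (by
      rw [map_mul, aeval_X, ← Matrix.mulVec_mulVec, e1, Matrix.mulVec_smul, aeval_eig e2]; simp)
    simp only [Polynomial.eval_mul, Polynomial.eval_sub, Polynomial.eval_X, Polynomial.eval_C] at this
    apply pow_ne_zero 2 a3
    linear_combination this / 2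

lemma NZ.prod {W ι : Type} [AddCommGroup W] [Module ℂ W] (s : Finset ι) {q : ι → W → ℂ}
    (h : ∀ i, NZ (q i)) : NZ (fun w => ∏ i ∈ s, q i w) := by
  classical
  induction s using Finset.induction_on with
  | empty => exact ⟨by simpa using Pol.const (W := W) 1, 0, by simp⟩
  | insert a s ha ih => simpa [Finset.prod_insert ha] using (h a).mul ih

noncomputable def kry (x0 : Fin N → ℂ) (A : Mat N) : Mat N :=
  Matrix.of fun i j => (A ^ (j : ℕ) *ᵥ x0) i

lemma pm_kry (x0 : Fin N → ℂ) : PMap (kry x0) := PMap.matrix fun i j => by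
  have := pm_pow (PMap.id (W := Mat N)) j (af (Pi.single i 1) x0)
  simpa [af_apply, kry] using this

lemma LS_of_kry {x0 : Fin N → ℂ} {A : Mat N} (h : (kry x0 A).det ≠ 0) {μ : ℂ} (hμ : Ev A μ) :
    LS A x0 μ := by
  intro f hf
  have h1 : aeval A f * kry x0 A = 0 := by
    ext i j
    have := kill_mul hf (dvd_mul_right f (X ^ (j : ℕ)))
    rw [map_mul, map_pow, aeval_X, ← Matrix.mulVec_mulVec] at this
    exact congrFun this i
  have hU : IsUnit (kry x0 A) := (Matrix.isUnit_iff_isUnit_det _).2 (isUnit_iff_ne_zero.2 h)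
  have h2 := hU.mul_left_eq_zero.1 h1
  obtain ⟨v, hv, e⟩ := hμ
  have := aeval_eig e f
  rw [h2, Matrix.zero_mulVec] at this
  exact (smul_eq_zero.1 this.symm).resolve_right hv

lemma exists_good {x0 : Fin N → ℂ} (hx : x0 ≠ 0) :
    ∃ T S : Mat N, disc (br T S) * (kry x0 (br T S)).det ≠ 0 := by
  obtain ⟨d, hd, hs⟩ := exists_diag N
  obtain ⟨T0, S0, h0⟩ := diag_br hs
  obtain ⟨k, hk⟩ := Function.ne_iff.1 hx
  have n1 : NZ (fun C : Mat N => C.det) := ⟨PMap.id.det, 1, by simp⟩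
  have n2 : ∀ i, NZ (fun C : Mat N => af (Pi.single i 1) x0 C) := fun i =>
    ⟨Pol.lin _, Matrix.single i k 1, by simpa [af_apply, Matrix.single_mulVec] using hk⟩
  obtain ⟨C, hC⟩ := (n1.mul (NZ.prod Finset.univ n2)).2
  obtain ⟨c1, c2⟩ := mul_ne_zero_iff.1 hC
  have hCd : IsUnit C.det := isUnit_iff_ne_zero.2 c1
  have hB : IsUnit C⁻¹ := Matrix.isUnit_nonsing_inv_iff.2 ((Matrix.isUnit_iff_isUnit_det _).2 hCd)
  refine ⟨C⁻¹ * T0 * C⁻¹⁻¹, C⁻¹ * S0 * C⁻¹⁻¹, ?_⟩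
  rw [br_conj hB, h0, disc_conj hB]
  refine mul_ne_zero (disc_diag hd) ?_
  have : kry x0 (C⁻¹ * diagonal d * C⁻¹⁻¹) = C⁻¹ * (diagonal (C *ᵥ x0) * vandermonde d) := by
    ext i j
    rw [kry, Matrix.of_apply, conj_pow hB, Matrix.nonsing_inv_nonsing_inv _ hCd,
      ← Matrix.mulVec_mulVec, ← Matrix.mulVec_mulVec, Matrix.mul_apply, Matrix.diagonal_pow]
    simp only [Matrix.mulVec, dotProduct]
    refine Finset.sum_congr rfl fun a _ => ?_
    congr 1
    simp [Matrix.diagonal_apply, Matrix.vandermonde_apply, Matrix.mulVec, dotProduct, mul_comm]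
  rw [this, Matrix.det_mul, Matrix.det_mul, Matrix.det_diagonal]
  refine mul_ne_zero ((Matrix.isUnit_iff_isUnit_det _).1 hB).ne_zero
    (mul_ne_zero ?_ (Matrix.det_vandermonde_ne_zero_iff.2 hd))
  simpa [af_apply] using c2

lemma tri {ε : Mat N → ℂ} (h1 : ∀ T, ε T = 1 ∨ ε T = -1) (T S : Mat N) :
    ∃ T' S', br T' S' = br T S ∧ ε T' * ε S' = 1 := by
  have b1 : br T (T + S) = br T S := by rw [br_add_right, br_self, zero_add]
  have b2 : br (T + S) S = br T S := by rw [br_add_left, br_self, add_zero]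
  rcases h1 T with a | a <;> rcases h1 S with b | b <;> rcases h1 (T + S) with c | c <;>
    first
    | (refine ⟨T, S, rfl, ?_⟩; rw [a, b]; simp; done)
    | (refine ⟨T, T + S, b1, ?_⟩; rw [a, c]; simp; done)
    | (refine ⟨T + S, S, b2, ?_⟩; rw [c, b]; simp; done)

theorem loc {x0 : Fin N → ℂ} (hx : x0 ≠ 0) (φ : Mat N → Mat N) :
    (∀ T S μ, LS (br (φ T) (φ S)) x0 μ ↔ LS (br T S) x0 μ) ↔
    ∃ (A : Mat N) (η ε : Mat N → ℂ), IsUnit A ∧ A *ᵥ x0 = x0 ∧ (∀ T, ε T = 1 ∨ ε T = -1) ∧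
      (∀ T S, ¬ InE x0 T → ¬ InE x0 S → ε T = ε S) ∧
      ∀ T, φ T = ε T • (A * T * A⁻¹) + η T • (1 : Mat N) := by
  constructor
  · intro h
    by_cases hN : ∃ i0 i1 : Fin N, i0 ≠ i1
    · obtain ⟨i0, i1, h01⟩ := hN
      obtain ⟨T0, S0, h0⟩ := exists_good hx
      obtain ⟨q, hq, A, hA, hF⟩ := core h01 (φ := φ) (p := fun A => disc A * (kry x0 A).det)
        (Pol.mul (pm_disc PMap.id) (pm_kry x0).det) h0 fun T S k hp => by
          obtain ⟨p1, p2⟩ := mul_ne_zero_iff.1 hp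
          obtain ⟨d, hd, hev⟩ := sep_of_disc p1
          rw [trace_pow_of_ev hd hev,
            trace_pow_of_ev hd fun i => ((h T S _).2 (LS_of_kry p2 (hev i))).ev]
      have hE := ext_form h01 hx (fun T S μ hμ => ((h T S μ).2 hμ).ev)
        (fun T S μ hμ => ((h T S μ).1 hμ).ev) hq hA
      have hy := inv_ne hA hx
      rcases hF with hF | hF
      · choose ε η h1 h2 using hE.1 hF
        have h3 : ∀ T S μ, LS ((ε T * ε S) • br T S) (A⁻¹ *ᵥ x0) μ ↔ LS (br T S) x0 μ := by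
          intro T S μ
          rw [← h T S μ, h2, h2, br_form hA, LS_conj hA]
        have hpar : ∃ c : ℂ, A⁻¹ *ᵥ x0 = c • x0 := by
          by_contra hc
          obtain ⟨T, S, e1, e2⟩ := test_pair hx hc
          obtain ⟨T', S', hb, he⟩ := tri h1 T S
          have := h3 T' S' 1
          rw [he, one_smul, hb, LS_eig e1 hx, LS_eig e2 hy] at this
          have := this.1 rfl
          norm_num at this
        obtain ⟨c, hc⟩ := hpar
        have hc0 : c ≠ 0 := by rintro rfl; exact hy (by simpa using hc)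
        have hd := (Matrix.isUnit_iff_isUnit_det A).1 hA
        have hinv : (c • A) * (c⁻¹ • A⁻¹) = 1 := by
          rw [Matrix.smul_mul, Matrix.mul_smul, smul_smul, mul_inv_cancel₀ hc0, one_smul,
            Matrix.mul_nonsing_inv _ hd]
        simp only [hc, LS_smul hc0] at h3
        have h4 : ∀ T S, NS x0 T S → ε T = ε S := by
          rintro T S ⟨μ, m1, m2⟩
          by_contra he
          have : ε T * ε S = -1 := by
            rcases h1 S with h | h <;> rcases h1 T with h' | h' <;> simp_all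
          apply m2
          rw [← h3, this]
          simpa using LS_neg m1
        have h5 : ∀ T S : Mat N, (¬ ∃ c : ℂ, T *ᵥ x0 = c • x0) → (¬ ∃ c : ℂ, S *ᵥ x0 = c • x0) →
            ε T = ε S := by
          intro T S hT hS
          obtain ⟨f, a1, a2, a3⟩ := two_f hx hT hS
          rw [h4 _ _ (ns_a hx a1 a2), h4 _ _ (ns_a hx a1 a3)]
        have h6 : ∀ T, ¬ InE x0 T → ∃ S : Mat N, (¬ ∃ c : ℂ, S *ᵥ x0 = c • x0) ∧ ε T = ε S := by
          intro T hT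
          by_cases hp : ∃ c : ℂ, T *ᵥ x0 = c • x0
          · obtain ⟨a, ha⟩ := hp
            obtain ⟨S, s1, s2⟩ := ns_b hx hT ha
            exact ⟨S, s1, h4 _ _ s2⟩
          · exact ⟨T, hp, rfl⟩
        refine ⟨c • A, η, ε, IsUnit.of_mul_eq_one _ hinv, ?_, h1, fun T S hT hS => ?_,
          fun T => ?_⟩
        · rw [Matrix.smul_mulVec, ← Matrix.mulVec_smul, ← hc, Matrix.mulVec_mulVec,
            Matrix.mul_nonsing_inv _ hd, Matrix.one_mulVec]
        · obtain ⟨T', t1, t2⟩ := h6 T hT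
          obtain ⟨S', s1, s2⟩ := h6 S hS
          rw [t2, s2, h5 _ _ t1 s1]
        · rw [h2, Matrix.inv_eq_right_inv hinv, Matrix.smul_mul, Matrix.smul_mul, Matrix.mul_smul,
            smul_smul c, mul_inv_cancel₀ hc0, one_smul]
      · exfalso
        choose ε η h1 h2 using hE.2 hF
        obtain ⟨w, hw⟩ := ((nz_fw h01 hx).2)
        have hw1 : ∃ v : Fin N → ℂ, ¬ ∃ c : ℂ, v = c • x0 := by
          by_contra hv
          push Not at hv
          obtain ⟨a, ha⟩ := hv (Pi.single i0 1)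
          obtain ⟨b, hb⟩ := hv (Pi.single i1 1)
          have a0 := congrFun ha i0
          have a1 := congrFun ha i1
          have b0 := congrFun hb i0
          have b1 := congrFun hb i1
          simp only [Pi.single_eq_same, Pi.single_eq_of_ne h01, Pi.single_eq_of_ne h01.symm,
            Pi.smul_apply, smul_eq_mul] at a0 a1 b0 b1
          have : (1 : ℂ) = 0 := by
            linear_combination a0 + (a * x0 i0) * b1 - (b * x0 i0) * a1
          exact one_ne_zero this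
        obtain ⟨v0, hv0⟩ := hw1
        obtain ⟨f, -, a1, a2, -⟩ := exists_pair hx hv0
        obtain ⟨g, hg⟩ := exists_dot hy
        obtain ⟨v, -, b1, b2⟩ := comb (w := 0) (a := f) (b := A⁻¹ *ᵥ x0) (f1 := v0) (f2 := g)
          (by simp) (by simp) (by rw [dotProduct_comm, a2]; exact one_ne_zero)
          (by rw [hg]; exact one_ne_zero)
        have hv : ¬ ∃ c : ℂ, v = c • x0 := by
          rintro ⟨c, rfl⟩
          apply b1
          rw [smul_dotProduct, dotProduct_comm, a1, smul_zero]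
        obtain ⟨T, S, e1, e2⟩ := test_pair hx hv
        obtain ⟨T', S', hb, he⟩ := tri h1 T S
        have := h T' S' 1
        rw [h2, h2, br_formT hA, LS_conj hA, he, one_smul, hb, LS_eig e1 hx] at this
        have := this.1 (LS_left (f := v) (by rw [Matrix.vecMul_transpose, e2]) b2)
        norm_num at this
    · push Not at hN
      refine ⟨1, fun T => (φ T - T).trace, fun _ => 1, isUnit_one, by simp, fun _ => Or.inl rfl,
        fun _ _ _ _ => rfl, fun T => ?_⟩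
      haveI : Subsingleton (Fin N) := ⟨hN⟩
      ext i j
      obtain rfl := hN i j
      simp [Matrix.trace, Fintype.sum_subsingleton _ i]
  · rintro ⟨A, η, ε, hA, hA0, h1, h2, h3⟩ T S μ
    have hd := (Matrix.isUnit_iff_isUnit_det A).1 hA
    have : A⁻¹ *ᵥ x0 = x0 := by
      conv_lhs => rw [← hA0]
      rw [Matrix.mulVec_mulVec, Matrix.nonsing_inv_mul _ hd, Matrix.one_mulVec]
    rw [h3, h3, br_form hA, LS_conj hA, this]
    by_cases he : ε T = ε S
    · have : ε T * ε S = 1 := by rw [he]; rcases h1 S with h | h <;> simp [h]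
      rw [this, one_smul]
    · have : ε T * ε S = -1 := by
        rcases h1 S with h | h <;> rcases h1 T with h' | h' <;> simp_all
      rw [this, neg_smul, one_smul]
      by_cases hT : InE x0 T
      · exact sym_E hx hT S μ
      by_cases hS : InE x0 S
      · rw [br_swap T S, neg_neg]
        exact (sym_E hx hS T μ).symm
      exact absurd (h2 T S hT hS) he

end Pool.Agent.H.MP_add2b9_al
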